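import Pool.Agent.T6.H9.SG.Enum

set_option autoImplicit false

/-!
# The enumeration of the classes
-/

namespace Pool.Agent.T6.H36.NC

open Pool.Agent.T6.H9.SG (domb hit hit_sound domb_iff)

/-- The nonincreasing lists with sum `s` and entries between `2` and `mx`, with at most `f`
entries. -/
def tl : ℕ → ℕ → ℕ → List (List ℕ)
  | 0, _, s => if s = 0 then [[]] else []
  | f + 1, mx, s => if s = 0 then [[]] else
      (List.range (min mx s + 1)).flatMap fun a =>
        if 2 ≤ a then (tl f a (s - a)).map (a :: ·) else []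

theorem mem_tl (f : ℕ) : ∀ (mx s : ℕ) (p : List ℕ), p.Pairwise (fun a b => b ≤ a) →
    (∀ v ∈ p, 2 ≤ v ∧ v ≤ mx) → p.sum = s → p.length ≤ f → p ∈ tl f mx s := by
  induction f with
  | zero =>
    intro mx s p _ _ h3 h4
    have : p = [] := List.length_eq_zero_iff.1 (by omega)
    subst this
    rw [List.sum_nil] at h3
    simp [tl, ← h3]
  | succ f ih =>
    intro mx s p h1 h2 h3 h4
    cases p with
    | nil =>
      rw [List.sum_nil] at h3
      simp [tl, ← h3]
    | cons a p =>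
      have ha := h2 a (by simp)
      rw [List.sum_cons] at h3
      have h1' := List.pairwise_cons.1 h1
      rw [tl, if_neg (by omega), List.mem_flatMap]
      refine ⟨a, by rw [List.mem_range]; omega, ?_⟩
      rw [if_pos ha.1, List.mem_map]
      refine ⟨p, ih a (s - a) p h1'.2 (fun v hv => ⟨(h2 v (by simp [hv])).1, h1'.1 v hv⟩)
        (by omega) (by simpa using h4), rfl⟩

/-- The conditions on the tail. -/
def cand (k : ℕ) : ℕ → List ℕ → Bool
  | _, [] => true
  | x, a :: p => Nat.ble a x && ((Nat.beq a x || Nat.ble k ((x - a) * (x - a))) &&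
      (Nat.ble k a && cand k a p))

theorem cand_of {k : ℕ} (p : List ℕ) : ∀ (x : ℕ),
    (x :: p).Pairwise (fun a b => b ≤ a ∧ (a = b ∨ k ≤ (a - b) * (a - b))) → (∀ v ∈ p, k ≤ v) →
    cand k x p = true := by
  induction p with
  | nil => intro x _ _; rfl
  | cons a p ih =>
    intro x h1 h2
    have h3 := List.pairwise_cons.1 h1
    obtain ⟨h4, h5⟩ := h3.1 a (by simp)
    rw [cand, ih a h3.2 fun v hv => h2 v (by simp [hv]), Nat.ble_eq_true_of_le h4,
      Nat.ble_eq_true_of_le (h2 a (by simp))]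
    rcases h5 with h5 | h5
    · have : Nat.beq a x = true := by
        rw [h5]
        exact Nat.beq_refl _
      rw [this]
      rfl
    · rw [Nat.ble_eq_true_of_le h5]
      simp

/-- Sum of squares. -/
def sq (l : List ℕ) : ℕ := (l.map fun v => v ^ 2).sum

/-- The table of the classes with a certificate. -/
def tab : List (ℕ × List ℕ) := [
  (15, [5, 5, 5, 5, 5, 5, 5, 5, 3, 3, 3]),
  (11, [5, 3, 3, 3, 3, 3, 3, 3, 3, 3, 3, 3]),
  (33, [11, 11, 11, 11, 11, 11, 11, 11, 8, 8])]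

/-- Classes of canonical degree `8` (not used for smaller degrees). -/
def rst : List (ℕ × List ℕ) := [
  (75, [25, 25, 25, 25, 25, 25, 25, 25, 23, 10]),
  (63, [21, 21, 21, 21, 21, 21, 21, 21, 18, 11]),
  (57, [19, 19, 19, 19, 19, 19, 19, 19, 15, 12])]

/-- The class. -/
def mk (x c1 c6 c7 c8 : ℕ) (p : List ℕ) : List ℕ :=
  (x + (c6 + c7 + c8) + c1) :: (x + (c6 + c7 + c8)) :: (x + (c6 + c7 + c8)) ::
    (x + (c6 + c7 + c8)) :: (x + (c6 + c7 + c8)) :: (x + (c6 + c7 + c8)) ::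
      (x + (c7 + c8)) :: (x + c8) :: x :: p

/-- One check. -/
noncomputable def one (κ k c0 c1 c6 c7 c8 : ℕ) (p : List ℕ) : Bool :=
  let t := 3 * c0 + 2 * c1 + 3 * c6 + 2 * c7 + c8
  let q := c0 ^ 2 + 2 * c0 * c1 + 6 * c0 * c6 + 6 * c0 * c7 + 6 * c0 * c8 + 4 * c1 * c6 +
    4 * c1 * c7 + 4 * c1 * c8 + 3 * c6 ^ 2 + 6 * c6 * c7 + 6 * c6 * c8 + 2 * c7 ^ 2 +
    4 * c7 * c8 + c8 ^ 2
  let x := (sq p - q - k) / (2 * t)
  !(Nat.beq (2 * x * t + q + k) (sq p)) || (!(cand k x p) ||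
    (hit tab (3 * x + c0 + c1 + 3 * (c6 + c7 + c8)) (mk x c1 c6 c7 c8 p) ||
      (Nat.beq κ 8 && decide ((3 * x + c0 + c1 + 3 * (c6 + c7 + c8), mk x c1 c6 c7 c8 p) ∈ rst))))

/-- A label is zero or its square is at least `k`. -/
def lb (k c : ℕ) : Bool := Nat.beq c 0 || Nat.ble k (c * c)

/-- All the checks. -/
noncomputable def all (κ : ℕ) : Bool :=
  [0, 2].all fun c0 => [0, 2, 3].all fun c1 => [0, 2].all fun c6 => [0, 2, 3].all fun c7 =>
    [0, 2, 3, 4, 5, 6, 7].all fun c8 =>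
      Nat.beq (3 * c0 + 2 * c1 + 3 * c6 + 2 * c7 + c8) 0 ||
      (Nat.ble 8 (3 * c0 + 2 * c1 + 3 * c6 + 2 * c7 + c8) ||
      ((tl 7 15 (3 * c0 + 2 * c1 + 3 * c6 + 2 * c7 + c8 + κ)).all fun p =>
        [2, 3, 4, 5, 6, 7, 8, 9, 10, 11, 12, 13, 14, 15].all fun k =>
          !(lb k c0) || (!(lb k c1) || (!(lb k c6) || (!(lb k c7) || (!(lb k c8) ||
            one κ k c0 c1 c6 c7 c8 p))))))

theorem all_ok : ([1, 2, 3, 4, 5].all fun κ => all κ) = true := by
  decide +kernel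

end Pool.Agent.T6.H36.NC
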