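import Pool.Agent.T6.H36.NC.C0
import Pool.Agent.T6.H36.NC.Tail

set_option autoImplicit false

/-!
# The classes of the table carry no curves
-/

namespace Pool.Agent.T6.H36.NC

open Polynomial Pool.Agent.H932R2 Pool.Agent.H932R3 Pool.Agent.H932R7 Pool.Agent.TH167.SHDefs
open Pool.Agent.T6.H9.SG (Cov)

theorem cov_cons {e : ℕ × List ℕ} {t : List (ℕ × List ℕ)} (h : Cov e.1 e.2)
    (ht : ∀ x ∈ t, Cov x.1 x.2) : ∀ x ∈ e :: t, Cov x.1 x.2 := by
  intro x hx
  rcases List.mem_cons.1 hx with rfl | hx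
  · exact h
  · exact ht x hx

theorem cov_nil : ∀ x ∈ ([] : List (ℕ × List ℕ)), Cov x.1 x.2 := by
  intro x hx
  exact absurd hx (by simp)

theorem tab_cov : ∀ e ∈ tab, Cov e.1 e.2 := by
  unfold tab
  refine cov_cons cov_01 ?_
  refine cov_cons cov_02 ?_
  refine cov_cons cov_03 ?_
  exact cov_nil

/-- No curves in classes with independent conditions. -/
theorem no_curve {n d : ℕ} {W : Fin n → ℕ} (h : RkS (PF ℚ W) (Tset d) (Tfin d).card)
    {P : Fin n → Fin 2 → ℂ}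
    (hP : AlgebraicIndependent ℚ (fun ij : Fin n × Fin 2 => P ij.1 ij.2))
    {G : MvPolynomial (Fin 3) ℂ} (hG : Curve P G d W) : False := by
  obtain ⟨F, hF, hF'⟩ := T_HOP ℂ n W _ _ h
  have h1 := hF' (fun ij => P ij.1 ij.2) (fun h0 => hF (hP.eq_zero_of_aeval_eq_zero F h0))
  have h2 := NoForm.of_rk h1
  have h3 : G = 0 := by
    refine h2 G hG.homogeneous ?_
    unfold vIdeal
    rw [Ideal.mem_iInf]
    intro i
    exact (mem_ptIdeal_iff hG.homogeneous).1 (hG.mult i).1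
  exact hG.irreducible.ne_zero h3

theorem tab_none {s d : ℕ} {m : ℕ → ℕ} {P : Fin s → Fin 2 → ℂ}
    (hP : AlgebraicIndependent ℚ (fun ij : Fin s × Fin 2 => P ij.1 ij.2))
    {G : MvPolynomial (Fin 3) ℂ} (hG : Curve P G d fun i : Fin s => m i)
    {e : ℕ × List ℕ} (he : e ∈ tab) (h1 : e.1 = d)
    (h2 : ∀ i < e.2.length, i < s ∧ e.2.getD i 0 ≤ m i) : False := by
  have h3 := tab_cov e he s (fun i : Fin s => m i) (fun i => ⟨i.1, (h2 i.1 i.2).1⟩)
    (fun i j h => Fin.ext (Fin.mk.inj h)) (fun i => (h2 i.1 i.2).2)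
  rw [h1] at h3
  exact no_curve h3 hP hG

end Pool.Agent.T6.H36.NC
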