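import Pool.Agent.T6.H36.NC.Lab
import Pool.Agent.T6.H36.NC.Tail

set_option autoImplicit false

/-!
# The classification of the standard classes with separated labels
-/

namespace Pool.Agent.T6.H36.NC

open Pool.Agent.T6.H9.SG (domb hit hit_sound domb_iff)

theorem split_zero : ∀ p : List ℕ, p.Pairwise (fun a b => b ≤ a) →
    ∃ (p' : List ℕ) (z : ℕ), p = p' ++ List.replicate z 0 ∧ ∀ v ∈ p', 0 < v := by
  intro p
  induction p with
  | nil => intro _; exact ⟨[], 0, rfl, by simp⟩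
  | cons a p ih =>
    intro h
    have h1 := List.pairwise_cons.1 h
    rcases Nat.eq_zero_or_pos a with ha | ha
    · refine ⟨[], p.length + 1, ?_, by simp⟩
      rw [List.nil_append, List.eq_replicate_iff]
      refine ⟨by simp, fun b hb => ?_⟩
      rcases List.mem_cons.1 hb with rfl | hb
      · exact ha
      · have := h1.1 b hb
        omega
    · obtain ⟨p', z, h2, h3⟩ := ih h1.2
      refine ⟨a :: p', z, by rw [h2]; rfl, fun v hv => ?_⟩
      rcases List.mem_cons.1 hv with rfl | hv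
      · exact ha
      · exact h3 v hv

theorem getD_zeros (l : List ℕ) (z i : ℕ) : (l ++ List.replicate z 0).getD i 0 = l.getD i 0 := by
  rcases Nat.lt_or_ge i l.length with h | h
  · rw [List.getD_append _ _ _ _ h]
  · rw [List.getD_append_right _ _ _ _ h, List.getD_eq_default l _ h]
    rcases Nat.lt_or_ge (i - l.length) z with h2 | h2
    · rw [List.getD_eq_getElem _ _ (by simpa using h2), List.getElem_replicate]
    · rw [List.getD_eq_default _ _ (by simpa using h2)]

theorem sum_list (f : ℕ → ℕ) (s : ℕ) :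
    ((List.range s).map f).sum = ∑ j ∈ Finset.range s, f j := by
  induction s with
  | zero => rfl
  | succ s ih => rw [List.range_succ, List.map_append, List.sum_append, ih, Finset.sum_range_succ]; simp

theorem sq_append (l l' : List ℕ) : sq (l ++ l') = sq l + sq l' := by
  simp [sq]

theorem sq_zeros (z : ℕ) : sq (List.replicate z 0) = 0 := by
  simp [sq]

theorem sq_ge {k : ℕ} : ∀ p : List ℕ, (∀ v ∈ p, k ≤ v) → k * p.sum ≤ sq p := by
  intro p
  induction p with
  | nil => intro _; simp [sq]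
  | cons a p ih =>
    intro h
    have h1 := ih fun v hv => h v (by simp [hv])
    have h2 := h a (by simp)
    have e : sq (a :: p) = a ^ 2 + sq p := by simp [sq]
    rw [e, List.sum_cons, mul_add, pow_two]
    exact add_le_add (Nat.mul_le_mul_right _ h2) h1

theorem len_le : ∀ p : List ℕ, (∀ v ∈ p, 2 ≤ v) → 2 * p.length ≤ p.sum := by
  intro p
  induction p with
  | nil => intro _; simp
  | cons a p ih =>
    intro h
    have h1 := ih fun v hv => h v (by simp [hv])
    have h2 := h a (by simp)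
    rw [List.length_cons, List.sum_cons]
    omega

theorem le_sum {v : ℕ} : ∀ p : List ℕ, v ∈ p → v ≤ p.sum := by
  intro p
  induction p with
  | nil => intro h; exact absurd h (by simp)
  | cons a p ih =>
    intro h
    rw [List.sum_cons]
    rcases List.mem_cons.1 h with rfl | h
    · omega
    · have := ih h
      omega

theorem tab_pos : ∀ e ∈ tab, ∀ i < e.2.length, 0 < e.2.getD i 0 := by decide

theorem all_mem {κ : ℕ} (h1 : 1 ≤ κ) (h2 : κ ≤ 5) : all κ = true := by
  have h := List.all_eq_true.1 all_ok κ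
  exact h (by simp only [List.mem_cons, List.not_mem_nil, or_false]; omega)

theorem all_one {κ k c0 c1 c6 c7 c8 : ℕ} (h : all κ = true) (h0 : c0 ∈ [0, 2])
    (h1 : c1 ∈ [0, 2, 3]) (h6 : c6 ∈ [0, 2]) (h7 : c7 ∈ [0, 2, 3])
    (h8 : c8 ∈ [0, 2, 3, 4, 5, 6, 7]) (ht : 3 * c0 + 2 * c1 + 3 * c6 + 2 * c7 + c8 ≠ 0)
    (ht8 : 3 * c0 + 2 * c1 + 3 * c6 + 2 * c7 + c8 < 8) {p : List ℕ}
    (hp : p ∈ tl 7 15 (3 * c0 + 2 * c1 + 3 * c6 + 2 * c7 + c8 + κ))
    (hk : k ∈ [2, 3, 4, 5, 6, 7, 8, 9, 10, 11, 12, 13, 14, 15])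
    (l0 : lb k c0 = true) (l1 : lb k c1 = true) (l6 : lb k c6 = true) (l7 : lb k c7 = true)
    (l8 : lb k c8 = true) : one κ k c0 c1 c6 c7 c8 p = true := by
  unfold all at h
  have e1 := List.all_eq_true.1 h c0 h0
  have e2 := List.all_eq_true.1 e1 c1 h1
  have e3 := List.all_eq_true.1 e2 c6 h6
  have e4 := List.all_eq_true.1 e3 c7 h7
  have e5 := List.all_eq_true.1 e4 c8 h8
  have e6 : Nat.beq (3 * c0 + 2 * c1 + 3 * c6 + 2 * c7 + c8) 0 = false := by
    rw [Bool.eq_false_iff]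
    exact fun h => ht (Nat.eq_of_beq_eq_true h)
  have e7 : Nat.ble 8 (3 * c0 + 2 * c1 + 3 * c6 + 2 * c7 + c8) = false := by
    rw [Bool.eq_false_iff]
    intro h
    have := Nat.le_of_ble_eq_true h
    omega
  rw [e6, e7, Bool.false_or, Bool.false_or] at e5
  have e8 := List.all_eq_true.1 e5 p hp
  have e9 := List.all_eq_true.1 e8 k hk
  rw [l0, l1, l6, l7, l8] at e9
  simpa using e9

theorem one_sound {κ k c0 c1 c6 c7 c8 x : ℕ} {p : List ℕ} (h : one κ k c0 c1 c6 c7 c8 p = true)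
    (ht : 3 * c0 + 2 * c1 + 3 * c6 + 2 * c7 + c8 ≠ 0)
    (hx : sq p = 2 * x * (3 * c0 + 2 * c1 + 3 * c6 + 2 * c7 + c8) +
      (c0 ^ 2 + 2 * c0 * c1 + 6 * c0 * c6 + 6 * c0 * c7 + 6 * c0 * c8 + 4 * c1 * c6 +
      4 * c1 * c7 + 4 * c1 * c8 + 3 * c6 ^ 2 + 6 * c6 * c7 + 6 * c6 * c8 + 2 * c7 ^ 2 +
      4 * c7 * c8 + c8 ^ 2) + k) (hc : cand k x p = true) :
    hit tab (3 * x + c0 + c1 + 3 * (c6 + c7 + c8)) (mk x c1 c6 c7 c8 p) = true ∨
      (κ = 8 ∧ (3 * x + c0 + c1 + 3 * (c6 + c7 + c8), mk x c1 c6 c7 c8 p) ∈ rst) := by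
  obtain ⟨t, ht'⟩ : ∃ t, t = 3 * c0 + 2 * c1 + 3 * c6 + 2 * c7 + c8 := ⟨_, rfl⟩
  obtain ⟨q, hq⟩ : ∃ q, q = c0 ^ 2 + 2 * c0 * c1 + 6 * c0 * c6 + 6 * c0 * c7 + 6 * c0 * c8 +
      4 * c1 * c6 + 4 * c1 * c7 + 4 * c1 * c8 + 3 * c6 ^ 2 + 6 * c6 * c7 + 6 * c6 * c8 +
      2 * c7 ^ 2 + 4 * c7 * c8 + c8 ^ 2 := ⟨_, rfl⟩
  unfold one at h
  rw [← ht'] at ht hx
  rw [← hq] at hx
  rw [← ht', ← hq] at h
  have hx' : (sq p - q - k) / (2 * t) = x := by
    have : sq p - q - k = x * (2 * t) := by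
      rw [hx]
      have : 2 * x * t = x * (2 * t) := by ring
      omega
    rw [this]
    exact Nat.mul_div_cancel _ (by omega)
  have hb : Nat.beq (2 * x * t + q + k) (sq p) = true := by
    rw [hx]
    exact Nat.beq_refl _
  simp only [hx', hb, hc, Bool.not_true, Bool.false_or] at h
  rcases (Bool.or_eq_true _ _).mp h with h | h
  · exact Or.inl h
  · rw [Bool.and_eq_true] at h
    exact Or.inr ⟨Nat.eq_of_beq_eq_true h.1, of_decide_eq_true h.2⟩

/-- The classification. -/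
theorem enum {m : ℕ → ℕ} (hm : Antitone m) {d s κ k : ℕ} (h3 : m 0 + m 1 + m 2 ≤ d)
    (hs : ∀ i, s ≤ i → m i = 0) (hK : ∑ i ∈ Finset.range s, m i = 3 * d + κ)
    (hC : ∑ i ∈ Finset.range s, m i ^ 2 = d ^ 2 + k) (hk : 2 ≤ k) (hκ1 : 1 ≤ κ) (hκ : κ ≤ 5)
    (hpos : ∀ i, m i = 0 ∨ k ≤ m i)
    (hgap : ∀ i j, i ≤ j → m i = m j ∨ k ≤ (m i - m j) * (m i - m j))
    (hc0 : m 0 + m 1 + m 2 = d ∨ k ≤ (d - (m 0 + m 1 + m 2)) * (d - (m 0 + m 1 + m 2))) :
    (∃ e ∈ tab, e.1 = d ∧ ∀ i < e.2.length, i < s ∧ e.2.getD i 0 ≤ m i) ∨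
      (κ = 8 ∧ ∃ e ∈ rst, e.1 = d ∧ ∀ i, m i = e.2.getD i 0) := by
  obtain ⟨g1, g2, g3, -⟩ := ineq hm h3 hs hK hC
  obtain ⟨h7, h6, h5, h4, h3', h2, h1, h0, hd⟩ := lab_eq hm h3
  obtain ⟨c, hc⟩ : ∃ c, c = lab d m := ⟨_, rfl⟩
  rw [← hc] at g1 g2 g3 h7 h6 h5 h4 h3' h2 h1 h0 hd
  have ht : tt c < κ := by
    by_contra hcon
    push Not at hcon
    have := Nat.mul_le_mul_left (m 8) hcon
    omega
  have hlab : ∀ i, i ≤ 8 → c i = 0 ∨ k ≤ c i * c i := by
    intro i hi
    rcases i with _ | i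
    · rcases hc0 with h | h
      · left
        rw [hc]
        simp only [lab]
        omega
      · right
        rw [hc]
        exact h
    · rcases hgap i (i + 1) (by omega) with h | h
      · left
        rw [hc]
        simp only [lab]
        omega
      · right
        rw [hc]
        exact h
  have hlb : ∀ i, i ≤ 8 → lb k (c i) = true := by
    intro i hi
    unfold lb
    rcases hlab i hi with h | h
    · rw [h]
      rfl
    · rw [Nat.ble_eq_true_of_le h, Bool.or_true]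
  have htwo : ∀ i, i ≤ 8 → c i = 0 ∨ 2 ≤ c i := by
    intro i hi
    rcases hlab i hi with h | h
    · exact Or.inl h
    · right
      by_contra hcon
      push Not at hcon
      have : c i * c i ≤ 1 * 1 := Nat.mul_le_mul (by omega) (by omega)
      omega
  have t0 := htwo 0 (by omega)
  have t1 := htwo 1 (by omega)
  have t2 := htwo 2 (by omega)
  have t3 := htwo 3 (by omega)
  have t4 := htwo 4 (by omega)
  have t5 := htwo 5 (by omega)
  have t6 := htwo 6 (by omega)
  have t7 := htwo 7 (by omega)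
  have t8 := htwo 8 (by omega)
  have htt : tt c = 3 * c 0 + 2 * c 1 + 4 * c 2 + 6 * c 3 + 5 * c 4 + 4 * c 5 + 3 * c 6 +
    2 * c 7 + c 8 := rfl
  have z2 : c 2 = 0 := by omega
  have z3 : c 3 = 0 := by omega
  have z4 : c 4 = 0 := by omega
  have z5 : c 5 = 0 := by omega
  have htt' : tt c = 3 * c 0 + 2 * c 1 + 3 * c 6 + 2 * c 7 + c 8 := by omega
  have hqq : qq c = c 0 ^ 2 + 2 * c 0 * c 1 + 6 * c 0 * c 6 + 6 * c 0 * c 7 + 6 * c 0 * c 8 +
      4 * c 1 * c 6 + 4 * c 1 * c 7 + 4 * c 1 * c 8 + 3 * c 6 ^ 2 + 6 * c 6 * c 7 +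
      6 * c 6 * c 8 + 2 * c 7 ^ 2 + 4 * c 7 * c 8 + c 8 ^ 2 := by
    unfold qq
    rw [z2, z3, z4, z5]
    ring
  -- the tail
  obtain ⟨p0, hp0⟩ : ∃ p0 : List ℕ, p0 = (List.range s).map fun j => m (9 + j) := ⟨_, rfl⟩
  have hpw0 : p0.Pairwise (fun a b => b ≤ a ∧ (a = b ∨ k ≤ (a - b) * (a - b))) := by
    rw [hp0, List.pairwise_map]
    refine List.Pairwise.imp ?_ List.pairwise_lt_range
    intro a b hab
    exact ⟨hm (by omega), hgap _ _ (by omega)⟩
  obtain ⟨p, z, hp, hppos⟩ := split_zero p0 (hpw0.imp fun h => h.1)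
  have hsum : p.sum = tt c + κ := by
    rw [← g1, ← sum_list, ← hp0, hp, List.sum_append]
    simp
  have hsq : sq p = 2 * m 8 * tt c + qq c + k := by
    rw [← g2, ← sum_list (fun j => m (9 + j) ^ 2)]
    have e1 : ((List.range s).map fun j => m (9 + j) ^ 2).sum = sq p0 := by
      rw [hp0, sq, List.map_map]
      rfl
    rw [e1, hp, sq_append, sq_zeros, add_zero]
  have hmem0 : ∀ v ∈ p0, ∃ j, v = m (9 + j) := by
    intro v hv
    rw [hp0, List.mem_map] at hv
    obtain ⟨j, -, rfl⟩ := hv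
    exact ⟨j, rfl⟩
  have hpk : ∀ v ∈ p, k ≤ v := by
    intro v hv
    obtain ⟨j, hj⟩ := hmem0 v (by rw [hp]; exact List.mem_append_left _ hv)
    have h8 := hppos v hv
    rcases hpos (9 + j) with h | h
    · omega
    · omega
  have hpw : p.Pairwise (fun a b => b ≤ a ∧ (a = b ∨ k ≤ (a - b) * (a - b))) := by
    rw [hp] at hpw0
    exact (List.pairwise_append.1 hpw0).1
  have hxp : (m 8 :: p).Pairwise (fun a b => b ≤ a ∧ (a = b ∨ k ≤ (a - b) * (a - b))) := by
    refine List.pairwise_cons.2 ⟨fun v hv => ?_, hpw⟩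
    obtain ⟨j, hj⟩ := hmem0 v (by rw [hp]; exact List.mem_append_left _ hv)
    rw [hj]
    exact ⟨hm (by omega), hgap _ _ (by omega)⟩
  have hcand := cand_of p (m 8) hxp hpk
  have hlen := len_le p fun v hv => hk.trans (hpk v hv)
  have htl : p ∈ tl 7 15 (tt c + κ) := by
    refine mem_tl 7 15 (tt c + κ) p (hpw.imp fun h => h.1) (fun v hv => ?_) hsum (by omega)
    exact ⟨hk.trans (hpk v hv), (le_sum p hv).trans (by omega)⟩
  have hne : p ≠ [] := by
    rintro rfl
    rw [List.sum_nil] at hsum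
    omega
  have hk15 : k ≤ 15 := by
    obtain ⟨v, hv⟩ := List.exists_mem_of_ne_nil p hne
    exact (hpk v hv).trans ((le_sum p hv).trans (by omega))
  have htne : tt c ≠ 0 := by
    intro h00
    have hc00 : ∀ i, i ≤ 8 → c i = 0 := by
      intro i hi
      interval_cases i <;> omega
    have hq0 : qq c = 0 := by
      unfold qq
      simp [hc00]
    have h8 := sq_ge p hpk
    rw [hsq, h00, hq0] at h8
    obtain ⟨v, hv⟩ := List.exists_mem_of_ne_nil p hne
    have h9 : 2 ≤ p.sum := hk.trans ((hpk v hv).trans (le_sum p hv))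
    have h10 : k * 2 ≤ k * p.sum := Nat.mul_le_mul_left _ h9
    omega
  have hone := all_one (all_mem hκ1 hκ) (c0 := c 0) (c1 := c 1) (c6 := c 6) (c7 := c 7)
    (c8 := c 8) (p := p) (k := k)
    (by simp only [List.mem_cons, List.not_mem_nil, or_false]; omega)
    (by simp only [List.mem_cons, List.not_mem_nil, or_false]; omega)
    (by simp only [List.mem_cons, List.not_mem_nil, or_false]; omega)
    (by simp only [List.mem_cons, List.not_mem_nil, or_false]; omega)
    (by simp only [List.mem_cons, List.not_mem_nil, or_false]; omega)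
    (by omega) (by omega) (by rw [← htt']; exact htl)
    (by simp only [List.mem_cons, List.not_mem_nil, or_false]; omega)
    (hlb 0 (by omega)) (hlb 1 (by omega)) (hlb 6 (by omega)) (hlb 7 (by omega))
    (hlb 8 (by omega))
  have hd' : 3 * m 8 + c 0 + c 1 + 3 * (c 6 + c 7 + c 8) = d := by omega
  have hfull : ∀ i, (mk (m 8) (c 1) (c 6) (c 7) (c 8) p).getD i 0 = m i := by
    intro i
    have e1 : mk (m 8) (c 1) (c 6) (c 7) (c 8) p ++ List.replicate z 0 =
        (List.range (9 + s)).map m := by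
      have e2 : (List.range (9 + s)).map m = [m 0, m 1, m 2, m 3, m 4, m 5, m 6, m 7, m 8] ++ p0 := by
        rw [List.range_add, List.map_append, List.map_map, hp0]
        rfl
      rw [e2, hp]
      unfold mk
      have f7 : m 7 = m 8 + c 8 := h7
      have f6 : m 6 = m 8 + (c 7 + c 8) := by omega
      have f5 : m 5 = m 8 + (c 6 + c 7 + c 8) := by omega
      have f4 : m 4 = m 8 + (c 6 + c 7 + c 8) := by omega
      have f3 : m 3 = m 8 + (c 6 + c 7 + c 8) := by omega
      have f2 : m 2 = m 8 + (c 6 + c 7 + c 8) := by omega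
      have f1 : m 1 = m 8 + (c 6 + c 7 + c 8) := by omega
      have f0 : m 0 = m 8 + (c 6 + c 7 + c 8) + c 1 := by omega
      rw [f0, f1, f2, f3, f4, f5, f6, f7]
      rfl
    rw [← getD_zeros _ z, e1]
    rcases Nat.lt_or_ge i (9 + s) with h | h
    · rw [List.getD_eq_getElem _ _ (by simpa using h), List.getElem_map, List.getElem_range]
    · rw [List.getD_eq_default _ _ (by simpa using h), hs i (by omega)]
  rcases one_sound hone (by omega) (x := m 8) (by rw [hsq, htt', hqq]) hcand with h | h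
  · left
    obtain ⟨e, he, he1, he2⟩ := hit_sound h
    refine ⟨e, he, he1.trans hd', fun i hi => ?_⟩
    obtain ⟨-, h9⟩ := (domb_iff _ _).1 he2
    have h10 := h9 i hi
    rw [hfull] at h10
    refine ⟨?_, h10⟩
    by_contra hcon
    push Not at hcon
    have h11 := hs i hcon
    have h12 := tab_pos e he i hi
    omega
  · right
    refine ⟨h.1, _, h.2, hd', fun i => (hfull i).symm⟩

end Pool.Agent.T6.H36.NC
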