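import Pool.Agent.T6.H98.WO.Orb
import Pool.Agent.Y939.NC.Std
import Pool.Agent.TH167.SH.Conv
import Pool.Agent.T6.H36.NC.Enm

set_option autoImplicit false

/-!
# The nonincreasing standard class in the orbit of a negative curve
-/

namespace Pool.Agent.T6.H36.NC

open MvPolynomial Pool.Agent.W609 Pool.Agent.W609.CR Pool.Agent.TH167 Pool.Agent.TH167.SH
open Pool.Agent.TH442.NF (cls refl Step refl_cls cls_inj)
open Pool.Agent.R355.NegOrb Pool.Agent.T6.H98.WO

theorem conj_of_quad {s : ℕ} {a b : ℕ × (Fin s → ℕ)} (h : Relation.ReflTransGen Quad a b) :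
    Conj (cls a.1 a.2) (cls b.1 b.2) := by
  induction h with
  | refl => exact Relation.ReflTransGen.refl
  | tail _ h2 ih =>
    obtain ⟨i, hi, p, rfl⟩ := h2
    refine Relation.ReflTransGen.tail ih
      ⟨_, Root.ln (ne10 hi).symm (ne20 hi).symm (ne21 hi).symm, ?_⟩
    rw [← refl_eq hi, refl_cls hi p]

theorem conj_perm {s : ℕ} (σ : Equiv.Perm (Fin s)) (d : ℕ) :
    ∀ w : Fin s → ℕ, Conj (cls d w) (cls d fun l => w (σ l)) := by
  classical
  induction σ using Equiv.Perm.swap_induction_on with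
  | one => intro w; exact Relation.ReflTransGen.refl
  | swap_mul f x y hxy ih =>
    intro w
    have h1 : Conj (cls d w) (cls d fun l => w (Equiv.swap x y l)) := by
      refine Relation.ReflTransGen.single ⟨_, Root.pt (i := x) (j := y) hxy, ?_⟩
      rw [sr_pt]
      rfl
    exact Relation.ReflTransGen.trans h1 (ih fun l => w (Equiv.swap x y l))

/-- The nonincreasing sequence of a sorted vector. -/
def ext {s : ℕ} (w : Fin s → ℕ) (i : ℕ) : ℕ := if h : i < s then w ⟨i, h⟩ else 0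

theorem ext_anti {s : ℕ} {w : Fin s → ℕ} (hw : Antitone w) : Antitone (ext w) := by
  intro i j hij
  unfold ext
  by_cases hj : j < s
  · rw [dif_pos hj, dif_pos (lt_of_le_of_lt hij hj)]
    exact hw (by exact hij)
  · rw [dif_neg hj]
    exact Nat.zero_le _

theorem ext_fin {s : ℕ} (w : Fin s → ℕ) (i : Fin s) : ext w i = w i := by
  unfold ext
  rw [dif_pos i.2]

theorem ext_zero {s : ℕ} (w : Fin s → ℕ) {i : ℕ} (hi : s ≤ i) : ext w i = 0 := by
  unfold ext
  rw [dif_neg (by omega)]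

theorem std_orb {r : ℕ} {P : Fin (r + 4) → Fin 2 → ℂ}
    (hP : AlgebraicIndependent ℚ (fun ij : Fin (r + 4) × Fin 2 => P ij.1 ij.2))
    {d : ℕ} {w : Fin (r + 4) → ℕ} (hI : Irr P d w) :
    ∃ (e : ℕ) (m : ℕ → ℕ), Conj (cls d w) (cls e fun i : Fin (r + 4) => m i) ∧ Antitone m ∧
      (∀ i, r + 4 ≤ i → m i = 0) ∧ m 0 + m 1 + m 2 ≤ e := by
  obtain ⟨C, h1, h2, h3⟩ := hI.ex
  obtain ⟨M, hM⟩ : ∃ M, ∀ j, w j ≤ M := ⟨∑ j, w j, fun j =>
    Finset.single_le_sum (fun _ _ => Nat.zero_le _) (Finset.mem_univ j)⟩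
  have hw : SH.Few M d w := by
    left
    rw [Finset.filter_false_of_mem fun j _ => not_lt.2 (hM j)]
    simp
  obtain ⟨P1, d1, w1, C1, a1, a2, a3, a4, a5, a6, a7, a8⟩ :=
    Pool.Agent.Y939.NC.std_irr d P hP w hw C h1 h2 h3 hI.ne
  obtain ⟨σ, hσ⟩ := exists_sort w1
  have hσ' : Antitone fun l => w1 (σ l) := hσ
  refine ⟨d1, ext fun l => w1 (σ l), ?_, ext_anti hσ', fun i hi => ext_zero _ hi, ?_⟩
  · have e1 : (fun i : Fin (r + 4) => ext (fun l => w1 (σ l)) i) = fun l => w1 (σ l) := by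
      funext i
      exact ext_fin _ i
    rw [e1]
    exact Relation.ReflTransGen.trans (conj_of_quad a5) (conj_perm σ d1 w1)
  · have n0 : ext (fun l => w1 (σ l)) 0 = w1 (σ ⟨0, by omega⟩) :=
      ext_fin (fun l => w1 (σ l)) ⟨0, by omega⟩
    have n1 : ext (fun l => w1 (σ l)) 1 = w1 (σ ⟨1, by omega⟩) :=
      ext_fin (fun l => w1 (σ l)) ⟨1, by omega⟩
    have n2 : ext (fun l => w1 (σ l)) 2 = w1 (σ ⟨2, by omega⟩) :=
      ext_fin (fun l => w1 (σ l)) ⟨2, by omega⟩
    rw [n0, n1, n2]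
    refine a6 _ _ _ (fun h => ?_) (fun h => ?_) (fun h => ?_)
    · exact absurd (Fin.mk.inj (σ.injective h)) (by omega)
    · exact absurd (Fin.mk.inj (σ.injective h)) (by omega)
    · exact absurd (Fin.mk.inj (σ.injective h)) (by omega)

theorem sq_nat {a b k : ℕ} (hab : b ≤ a) (h : (k : ℤ) ≤ ((a : ℤ) - b) ^ 2) :
    k ≤ (a - b) * (a - b) := by
  have e : ((a - b : ℕ) : ℤ) = (a : ℤ) - b := by
    push_cast [hab]
    ring
  have h2 : (k : ℤ) ≤ ((a - b) * (a - b) : ℕ) := by
    rw [Nat.cast_mul, e, ← pow_two]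
    exact h
  exact_mod_cast h2

/-- The gaps of the multiplicities. -/
theorem gaps {r : ℕ} {P : Fin (r + 4) → Fin 2 → ℂ}
    (hP : AlgebraicIndependent ℚ (fun ij : Fin (r + 4) × Fin 2 => P ij.1 ij.2))
    {e k : ℕ} {m : ℕ → ℕ} (hO : Orb P (cls e fun i : Fin (r + 4) => m i)) (hm : Antitone m)
    (hz : ∀ i, r + 4 ≤ i → m i = 0) (h3 : m 0 + m 1 + m 2 ≤ e) (hk : 1 ≤ k)
    (hself : dot (cls e fun i : Fin (r + 4) => m i) (cls e fun i : Fin (r + 4) => m i) = -(k : ℤ)) :
    (∀ i, m i = 0 ∨ k ≤ m i) ∧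
    (∀ i j, i ≤ j → m i = m j ∨ k ≤ (m i - m j) * (m i - m j)) ∧
    (m 0 + m 1 + m 2 = e ∨ k ≤ (e - (m 0 + m 1 + m 2)) * (e - (m 0 + m 1 + m 2))) := by
  have hp : ∀ i, m i = 0 ∨ k ≤ m i := by
    intro i
    by_cases hi : i < r + 4
    · obtain ⟨-, g⟩ := gap_mult hP hO ⟨i, hi⟩
      by_cases h0 : m i = 0
      · exact Or.inl h0
      · right
        have g1 := g (by
          show (m i : ℤ) ≠ 0
          exact_mod_cast h0)
        rw [hself, neg_neg] at g1
        have g2 : (k : ℤ) ≤ (m i : ℤ) := g1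
        exact_mod_cast g2
    · exact Or.inl (hz i (by omega))
  refine ⟨hp, fun i j hij => ?_, ?_⟩
  · by_cases hj : j < r + 4
    · have hi : i < r + 4 := by omega
      rcases Nat.eq_or_lt_of_le hij with rfl | hlt
      · exact Or.inl rfl
      · have hne : (⟨i, hi⟩ : Fin (r + 4)) ≠ ⟨j, hj⟩ := fun h => by
          have := Fin.mk.inj h
          omega
        have hd := dot_pt (i := (⟨i, hi⟩ : Fin (r + 4))) (j := ⟨j, hj⟩)
          (cls e fun i : Fin (r + 4) => m i)
        by_cases h0 : m i = m j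
        · exact Or.inl h0
        · right
          have g := gap_root hP hO (Root.pt hne) (by
            rw [hd]
            show (m i : ℤ) - m j ≠ 0
            intro h
            have : (m i : ℤ) = m j := by linarith
            exact h0 (by exact_mod_cast this))
          rw [hself, neg_neg, hd] at g
          exact sq_nat (hm hij) g
    · have h0 := hz j (by omega)
      rcases hp i with h | h
      · left
        rw [h, h0]
      · right
        rw [h0, Nat.sub_zero]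
        exact h.trans (Nat.le_mul_of_pos_left _ (by omega))
  · have n01 : (⟨0, by omega⟩ : Fin (r + 4)) ≠ ⟨1, by omega⟩ := fun h => by
      have := Fin.mk.inj h
      omega
    have n02 : (⟨0, by omega⟩ : Fin (r + 4)) ≠ ⟨2, by omega⟩ := fun h => by
      have := Fin.mk.inj h
      omega
    have n12 : (⟨1, by omega⟩ : Fin (r + 4)) ≠ ⟨2, by omega⟩ := fun h => by
      have := Fin.mk.inj h
      omega
    have hd := dot_ln n01 n02 n12 (cls e fun i : Fin (r + 4) => m i)
    have hd' : (cls e fun i : Fin (r + 4) => m i).1 - (cls e fun i : Fin (r + 4) => m i).2 ⟨0, by omega⟩ -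
        (cls e fun i : Fin (r + 4) => m i).2 ⟨1, by omega⟩ -
        (cls e fun i : Fin (r + 4) => m i).2 ⟨2, by omega⟩ =
        (e : ℤ) - ((m 0 + m 1 + m 2 : ℕ) : ℤ) := by
      push_cast
      show (e : ℤ) - (m 0 : ℤ) - (m 1 : ℤ) - (m 2 : ℤ) = _
      ring
    rw [hd'] at hd
    by_cases h0 : m 0 + m 1 + m 2 = e
    · exact Or.inl h0
    · right
      have g := gap_root hP hO (Root.ln n01 n02 n12) (by
        rw [hd]
        intro h
        have : ((m 0 + m 1 + m 2 : ℕ) : ℤ) = e := by linarith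
        exact h0 (by exact_mod_cast this))
      rw [hself, neg_neg, hd] at g
      exact sq_nat h3 g

/-- The canonical degree of the roots is zero. -/
theorem kc_root {s : ℕ} {a : ℤ × (Fin s → ℤ)} (ha : Root a) : 3 * a.1 - ∑ l, a.2 l = 0 := by
  classical
  induction ha with
  | @pt i j h =>
    show 3 * (0 : ℤ) - ∑ l, ((if l = j then (1 : ℤ) else 0) - (if l = i then 1 else 0)) = 0
    rw [Finset.sum_sub_distrib]
    simp
  | @ln i j k hij hik hjk =>
    show 3 * (1 : ℤ) - ∑ l, (if l = i ∨ l = j ∨ l = k then (1 : ℤ) else 0) = 0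
    have h := sum_ite3 hij hik hjk fun _ => (1 : ℤ)
    simp only [one_mul] at h
    rw [h]
    norm_num
  | @sr a b _ _ iha ihb =>
    show 3 * (b.1 + dot b a * a.1) - ∑ l, (b.2 l + dot b a * a.2 l) = 0
    rw [Finset.sum_add_distrib, ← Finset.mul_sum]
    linear_combination ihb + dot b a * iha

theorem kc_sr {s : ℕ} {a : ℤ × (Fin s → ℤ)} (ha : Root a) (x : ℤ × (Fin s → ℤ)) :
    3 * (sr a x).1 - ∑ l, (sr a x).2 l = 3 * x.1 - ∑ l, x.2 l := by
  have h := kc_root ha
  show 3 * (x.1 + dot x a * a.1) - ∑ l, (x.2 l + dot x a * a.2 l) = _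
  rw [Finset.sum_add_distrib, ← Finset.mul_sum]
  linear_combination dot x a * h

end Pool.Agent.T6.H36.NC
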