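import Mathlib

set_option autoImplicit false

/-!
# The labels of a standard class on the nine largest multiplicities

The multiplicities are `m 0 ≥ m 1 ≥ …`; the numbers `c i` are the products with the simple roots
and `t` is the product with the anticanonical class of the first nine points.
-/

namespace Pool.Agent.T6.H36.NC

/-- The product with `3 H - E_0 - ⋯ - E_8`. -/
def tt (c : ℕ → ℕ) : ℕ :=
  3 * c 0 + 2 * c 1 + 4 * c 2 + 6 * c 3 + 5 * c 4 + 4 * c 5 + 3 * c 6 + 2 * c 7 + c 8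

/-- The self-intersection of the part without the anticanonical class. -/
def qq (c : ℕ → ℕ) : ℕ :=
  c 0 ^ 2 + 2 * c 0 * c 1 + 4 * c 0 * c 2 + 6 * c 0 * c 3 + 6 * c 0 * c 4 + 6 * c 0 * c 5 +
  6 * c 0 * c 6 + 6 * c 0 * c 7 + 6 * c 0 * c 8 + 2 * c 1 * c 2 + 4 * c 1 * c 3 + 4 * c 1 * c 4 +
  4 * c 1 * c 5 + 4 * c 1 * c 6 + 4 * c 1 * c 7 + 4 * c 1 * c 8 + 2 * c 2 ^ 2 + 8 * c 2 * c 3 +
  8 * c 2 * c 4 + 8 * c 2 * c 5 + 8 * c 2 * c 6 + 8 * c 2 * c 7 + 8 * c 2 * c 8 + 6 * c 3 ^ 2 +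
  12 * c 3 * c 4 + 12 * c 3 * c 5 + 12 * c 3 * c 6 + 12 * c 3 * c 7 + 12 * c 3 * c 8 +
  5 * c 4 ^ 2 + 10 * c 4 * c 5 + 10 * c 4 * c 6 + 10 * c 4 * c 7 + 10 * c 4 * c 8 + 4 * c 5 ^ 2 +
  8 * c 5 * c 6 + 8 * c 5 * c 7 + 8 * c 5 * c 8 + 3 * c 6 ^ 2 + 6 * c 6 * c 7 + 6 * c 6 * c 8 +
  2 * c 7 ^ 2 + 4 * c 7 * c 8 + c 8 ^ 2

/-- The numbers `c i`. -/
def lab (d : ℕ) (m : ℕ → ℕ) : ℕ → ℕ
  | 0 => d - (m 0 + m 1 + m 2)
  | i + 1 => m i - m (i + 1)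

theorem nine_sum {m : ℕ → ℕ} {s : ℕ} (hs : ∀ i, s ≤ i → m i = 0) (g : ℕ → ℕ) (hg : g 0 = 0) :
    ∑ i ∈ Finset.range s, g (m i) =
      ∑ i ∈ Finset.range 9, g (m i) + ∑ j ∈ Finset.range s, g (m (9 + j)) := by
  have h1 : ∑ i ∈ Finset.range s, g (m i) = ∑ i ∈ Finset.range (9 + s), g (m i) := by
    refine Finset.sum_subset (Finset.range_subset_range.2 (by omega)) fun i _ hi => ?_
    rw [hs i (by simpa using hi), hg]
  rw [h1, Finset.sum_range_add]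

theorem tail_le {m : ℕ → ℕ} (hm : Antitone m) (s : ℕ) :
    ∑ j ∈ Finset.range s, m (9 + j) ^ 2 ≤ m 8 * ∑ j ∈ Finset.range s, m (9 + j) := by
  rw [Finset.mul_sum]
  refine Finset.sum_le_sum fun j _ => ?_
  rw [pow_two]
  exact Nat.mul_le_mul_right _ (hm (by omega))

/-- The class is recovered from the labels. -/
theorem lab_eq {m : ℕ → ℕ} (hm : Antitone m) {d : ℕ} (h3 : m 0 + m 1 + m 2 ≤ d) :
    m 7 = m 8 + lab d m 8 ∧ m 6 = m 7 + lab d m 7 ∧ m 5 = m 6 + lab d m 6 ∧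
    m 4 = m 5 + lab d m 5 ∧ m 3 = m 4 + lab d m 4 ∧ m 2 = m 3 + lab d m 3 ∧
    m 1 = m 2 + lab d m 2 ∧ m 0 = m 1 + lab d m 1 ∧ d = m 0 + m 1 + m 2 + lab d m 0 := by
  have h : ∀ i, m (i + 1) ≤ m i := fun i => hm (by omega)
  have g0 := h 0
  have g1 := h 1
  have g2 := h 2
  have g3 := h 3
  have g4 := h 4
  have g5 := h 5
  have g6 := h 6
  have g7 := h 7
  simp only [zero_add, Nat.reduceAdd] at g0 g1 g2 g3 g4 g5 g6 g7
  refine ⟨?_, ?_, ?_, ?_, ?_, ?_, ?_, ?_, ?_⟩ <;> simp only [lab, zero_add, Nat.reduceAdd] <;> omega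

theorem nine_lin {m : ℕ → ℕ} (hm : Antitone m) {d : ℕ} (h3 : m 0 + m 1 + m 2 ≤ d) :
    3 * d = ∑ i ∈ Finset.range 9, m i + tt (lab d m) := by
  obtain ⟨h7, h6, h5, h4, h3, h2, h1, h0, hd⟩ := lab_eq hm h3
  simp only [Finset.sum_range_succ, Finset.sum_range_zero, tt]
  omega

theorem nine_quad {m : ℕ → ℕ} (hm : Antitone m) {d : ℕ} (h3 : m 0 + m 1 + m 2 ≤ d) :
    d ^ 2 = ∑ i ∈ Finset.range 9, m i ^ 2 + 2 * m 8 * tt (lab d m) + qq (lab d m) := by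
  obtain ⟨h7, h6, h5, h4, h3, h2, h1, h0, hd⟩ := lab_eq hm h3
  obtain ⟨c, hc⟩ : ∃ c, c = lab d m := ⟨_, rfl⟩
  rw [← hc] at h7 h6 h5 h4 h3 h2 h1 h0 hd ⊢
  obtain ⟨x, hx⟩ : ∃ x, x = m 8 := ⟨_, rfl⟩
  simp only [Finset.sum_range_succ, Finset.sum_range_zero, tt, qq]
  rw [← hx] at h7 ⊢
  rw [h7] at h6
  rw [h6] at h5
  rw [h5] at h4
  rw [h4] at h3
  rw [h3] at h2
  rw [h2] at h1
  rw [h1] at h0
  rw [hd, h0, h1, h2, h3, h4, h5, h6, h7]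
  ring

/-- The general inequality. -/
theorem ineq {m : ℕ → ℕ} (hm : Antitone m) {d s κ k : ℕ} (h3 : m 0 + m 1 + m 2 ≤ d)
    (hs : ∀ i, s ≤ i → m i = 0) (hK : ∑ i ∈ Finset.range s, m i = 3 * d + κ)
    (hC : ∑ i ∈ Finset.range s, m i ^ 2 = d ^ 2 + k) :
    ∑ j ∈ Finset.range s, m (9 + j) = tt (lab d m) + κ ∧
    ∑ j ∈ Finset.range s, m (9 + j) ^ 2 = 2 * m 8 * tt (lab d m) + qq (lab d m) + k ∧
    m 8 * tt (lab d m) + qq (lab d m) + k ≤ m 8 * κ ∧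
    m 8 * ∑ j ∈ Finset.range s, m (9 + j) + qq (lab d m) + k ≤ 2 * m 8 * κ := by
  have e1 := nine_sum hs (fun x => x) rfl
  have e2 := nine_sum hs (fun x => x ^ 2) rfl
  have e3 := nine_lin hm h3
  have e4 := nine_quad hm h3
  have e5 := tail_le hm s
  have g1 : ∑ j ∈ Finset.range s, m (9 + j) = tt (lab d m) + κ := by omega
  have g2 : ∑ j ∈ Finset.range s, m (9 + j) ^ 2 = 2 * m 8 * tt (lab d m) + qq (lab d m) + k := by
    beta_reduce at e2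
    omega
  have g3 : m 8 * tt (lab d m) + qq (lab d m) + k ≤ m 8 * κ := by
    rw [g1, g2] at e5
    nlinarith
  refine ⟨g1, g2, g3, ?_⟩
  rw [g1]
  nlinarith

end Pool.Agent.T6.H36.NC
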